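import Pool.Agent.Q87.SF.Stm

/-! # Project SF (helper87), job SF-W (helper224): a function with logarithmic zeros -/

set_option autoImplicit false

namespace Pool.Agent.Q224.SF

open Filter Topology Metric Pool.Agent.Q87 Pool.Agent.Q87.SF

/-- argument of the logarithm -/
noncomputable def uu (s z : ℂ) : ℂ := (1 - starRingEnd ℂ s * z) / 2

theorem conj_mul_self {s : ℂ} (hs : ‖s‖ = 1) : starRingEnd ℂ s * s = 1 := by
  rw [mul_comm, Complex.mul_conj, Complex.normSq_eq_norm_sq, hs]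
  norm_num

theorem norm_uu {s z : ℂ} (hs : ‖s‖ = 1) : ‖uu s z‖ = ‖z - s‖ / 2 := by
  have h1 : (1 - starRingEnd ℂ s * z) = starRingEnd ℂ s * (s - z) := by
    rw [mul_sub, conj_mul_self hs]
  unfold uu
  rw [norm_div, h1, norm_mul, RCLike.norm_conj, hs, one_mul, norm_sub_rev]
  norm_num

theorem uu_slit {s z : ℂ} (hs : ‖s‖ = 1) (hz : ‖z‖ ≤ 1) (hne : z ≠ s) :
    uu s z ∈ Complex.slitPlane := by
  obtain ⟨c, hc⟩ : ∃ c : ℂ, c = starRingEnd ℂ s * z := ⟨_, rfl⟩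
  have hcn : ‖c‖ ≤ 1 := by rw [hc, norm_mul, RCLike.norm_conj, hs, one_mul]; exact hz
  have hre : c.re < 1 := by
    by_contra hcon
    rw [not_lt] at hcon
    have h1 : c.re ^ 2 + c.im ^ 2 = ‖c‖ ^ 2 := by
      rw [← Complex.normSq_eq_norm_sq, Complex.normSq_apply]
      ring
    have h2 : c.re ≤ 1 := (Complex.re_le_norm c).trans hcn
    have h3 : c.re = 1 := le_antisymm h2 hcon
    have h4 : c.im = 0 := by
      have h5 : ‖c‖ ^ 2 ≤ 1 := by nlinarith [norm_nonneg c]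
      have h6 : c.im ^ 2 ≤ 0 := by nlinarith
      exact pow_eq_zero_iff (two_ne_zero) |>.1 (le_antisymm h6 (sq_nonneg _))
    have h5 : c = 1 := Complex.ext h3 h4
    apply hne
    have h6 : s * (starRingEnd ℂ s * z) = s * 1 := by rw [← hc, h5]
    rw [← mul_assoc, mul_comm s, conj_mul_self hs, one_mul, mul_one] at h6
    exact h6
  rw [Complex.mem_slitPlane_iff]
  left
  unfold uu
  rw [← hc]
  have h1 : ((1 - c) / 2).re = (1 - c.re) / 2 := by
    have h2 : (1 - c) / 2 = (1 - c) * ((1 / 2 : ℝ) : ℂ) := by push_cast; ring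
    rw [h2, Complex.re_mul_ofReal, Complex.sub_re, Complex.one_re]
    ring
  rw [h1]
  linarith

theorem norm_log_le {s z : ℂ} {δ : ℝ} (hs : ‖s‖ = 1) (hz : ‖z‖ ≤ 1) (hδ : 0 < δ)
    (h : δ ≤ ‖z - s‖) : ‖Complex.log (uu s z)‖ ≤ Real.log (2 / δ) + Real.pi := by
  have h1 := Complex.norm_le_abs_re_add_abs_im (Complex.log (uu s z))
  rw [Complex.log_re, Complex.log_im, norm_uu hs] at h1
  have h2 := Complex.abs_arg_le_pi (uu s z)
  have h3 : ‖z - s‖ ≤ 2 := by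
    have := norm_sub_le z s
    linarith
  have h4 : |Real.log (‖z - s‖ / 2)| ≤ Real.log (2 / δ) := by
    have h5 : Real.log (‖z - s‖ / 2) ≤ 0 := Real.log_nonpos (by positivity) (by linarith)
    rw [abs_of_nonpos h5, ← Real.log_inv]
    apply Real.log_le_log
    · have : 0 < ‖z - s‖ := lt_of_lt_of_le hδ h
      positivity
    · rw [inv_div]
      exact div_le_div_of_nonneg_left (by norm_num) hδ h
  linarith

section

variable {m : ℕ → ℕ} {ζ : ℕ → ℕ → ℂ} {α : ℕ → ℝ}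

/-- one level of the logarithm -/
noncomputable def TT (m : ℕ → ℕ) (ζ : ℕ → ℕ → ℂ) (α : ℕ → ℝ) (j : ℕ) (z : ℂ) : ℂ :=
  (α j : ℂ) * ∑ a ∈ Finset.range (m j), Complex.log (uu (ζ j a) z)

/-- all points of the family have distance at least `δ` from `z` -/
def Far (m : ℕ → ℕ) (ζ : ℕ → ℕ → ℂ) (δ : ℝ) (z : ℂ) : Prop := ∀ j a, a < m j → δ ≤ ‖z - ζ j a‖

theorem TT_le (hζ : ∀ j a, ‖ζ j a‖ = 1) (hα : ∀ j, 0 < α j) {δ : ℝ} (hδ : 0 < δ) {z : ℂ}
    (hz : ‖z‖ ≤ 1) (h : Far m ζ δ z) (j : ℕ) :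
    ‖TT m ζ α j z‖ ≤ α j * m j * (Real.log (2 / δ) + Real.pi) := by
  unfold TT
  rw [norm_mul, Complex.norm_real, Real.norm_of_nonneg (hα j).le, mul_assoc]
  refine mul_le_mul_of_nonneg_left ?_ (hα j).le
  refine (norm_sum_le _ _).trans ?_
  have h1 : ∀ a ∈ Finset.range (m j), ‖Complex.log (uu (ζ j a) z)‖ ≤ Real.log (2 / δ) + Real.pi :=
    fun a ha => norm_log_le (hζ j a) hz hδ (h j a (Finset.mem_range.1 ha))
  refine (Finset.sum_le_sum h1).trans ?_
  rw [Finset.sum_const, Finset.card_range, nsmul_eq_mul]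

theorem TT_diff (hζ : ∀ j a, ‖ζ j a‖ = 1) (j : ℕ) : DifferentiableOn ℂ (TT m ζ α j) (ball 0 1) := by
  intro z hz
  rw [mem_ball_zero_iff] at hz
  refine DifferentiableAt.differentiableWithinAt ?_
  unfold TT
  refine DifferentiableAt.const_mul ?_ _
  refine DifferentiableAt.fun_sum fun a _ => ?_
  refine DifferentiableAt.clog ?_ (uu_slit (hζ j a) hz.le ?_)
  · unfold uu
    fun_prop
  · rintro rfl
    rw [hζ] at hz
    exact lt_irrefl _ hz

theorem TT_cont (hζ : ∀ j a, ‖ζ j a‖ = 1) {δ : ℝ} (hδ : 0 < δ) {s : Set ℂ}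
    (hs : ∀ z ∈ s, ‖z‖ ≤ 1 ∧ Far m ζ δ z) (j : ℕ) : ContinuousOn (TT m ζ α j) s := by
  unfold TT
  refine ContinuousOn.mul continuousOn_const ?_
  refine continuousOn_finsetSum _ fun a ha => ?_
  refine ContinuousOn.clog ?_ fun z hz => uu_slit (hζ j a) (hs z hz).1 ?_
  · unfold uu
    fun_prop
  · rintro rfl
    have := (hs _ hz).2 j a (Finset.mem_range.1 ha)
    rw [sub_self, norm_zero] at this
    linarith

/-- the logarithm of the function -/
noncomputable def GG (m : ℕ → ℕ) (ζ : ℕ → ℕ → ℂ) (α : ℕ → ℝ) (z : ℂ) : ℂ := ∑' j, TT m ζ α j z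

open Classical in
/-- the function -/
noncomputable def FF (m : ℕ → ℕ) (ζ : ℕ → ℕ → ℂ) (α : ℕ → ℝ) (z : ℂ) : ℂ :=
  if z ∈ closure {x : ℂ | ∃ j a, a < m j ∧ x = ζ j a} then 0 else Complex.exp (GG m ζ α z)

theorem far_of_notMem {z : ℂ} (hz : z ∉ closure {x : ℂ | ∃ j a, a < m j ∧ x = ζ j a}) :
    ∃ δ : ℝ, 0 < δ ∧ Far m ζ δ z := by
  rw [Metric.mem_closure_iff] at hz
  push Not at hz
  obtain ⟨δ, hδ, h⟩ := hz
  refine ⟨δ, hδ, fun j a ha => ?_⟩
  have := h (ζ j a) ⟨j, a, ha, rfl⟩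
  rwa [dist_eq_norm] at this

theorem notMem_of_far {z : ℂ} {δ : ℝ} (hδ : 0 < δ) (h : Far m ζ δ z) :
    z ∉ closure {x : ℂ | ∃ j a, a < m j ∧ x = ζ j a} := by
  rw [Metric.mem_closure_iff]
  push Not
  refine ⟨δ, hδ, ?_⟩
  rintro _ ⟨j, a, ha, rfl⟩
  rw [dist_eq_norm]
  exact h j a ha

theorem far_ball (hζ : ∀ j a, ‖ζ j a‖ = 1) {z : ℂ} {r : ℝ} (hz : ‖z‖ < r) : Far m ζ (1 - r) z := by
  intro j a _
  have h1 := norm_sub_norm_le (ζ j a) z
  rw [hζ, norm_sub_rev] at h1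
  linarith

theorem summable_TT (hζ : ∀ j a, ‖ζ j a‖ = 1) (hα : ∀ j, 0 < α j)
    (hs : Summable fun j => α j * m j) {δ : ℝ} (hδ : 0 < δ) {z : ℂ} (hz : ‖z‖ ≤ 1)
    (h : Far m ζ δ z) : Summable fun j => TT m ζ α j z :=
  Summable.of_norm_bounded (hs.mul_right _) fun j => TT_le hζ hα hδ hz h j

theorem PP_nonneg (J : ℕ) (z : ℂ) : 0 ≤ PP m ζ α J z :=
  Finset.prod_nonneg fun _ _ => Finset.prod_nonneg fun _ _ => by positivity

theorem factor_le (hζ : ∀ j a, ‖ζ j a‖ = 1) (hα : ∀ j, 0 < α j) {z : ℂ} (hz : ‖z‖ ≤ 1) (j : ℕ) :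
    ∏ a ∈ Finset.range (m j), (‖z - ζ j a‖ / 2) ^ (α j) ≤ 1 := by
  refine Finset.prod_le_one (fun _ _ => by positivity) fun a _ => ?_
  refine Real.rpow_le_one (by positivity) ?_ (hα j).le
  have := norm_sub_le z (ζ j a)
  rw [hζ] at this
  linarith

theorem PP_antitone (hζ : ∀ j a, ‖ζ j a‖ = 1) (hα : ∀ j, 0 < α j) {z : ℂ} (hz : ‖z‖ ≤ 1) :
    Antitone fun J => PP m ζ α J z := by
  refine antitone_nat_of_succ_le fun J => ?_
  unfold PP
  rw [Finset.prod_range_succ]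
  exact mul_le_of_le_one_right (PP_nonneg J z) (factor_le hζ hα hz J)

theorem PP_bdd (z : ℂ) : BddBelow (Set.range fun J => PP m ζ α J z) :=
  ⟨0, by rintro _ ⟨J, rfl⟩; exact PP_nonneg J z⟩

theorem TT_re (hζ : ∀ j a, ‖ζ j a‖ = 1) {δ : ℝ} (hδ : 0 < δ) {z : ℂ} (h : Far m ζ δ z) (j : ℕ) :
    Real.exp (TT m ζ α j z).re = ∏ a ∈ Finset.range (m j), (‖z - ζ j a‖ / 2) ^ (α j) := by
  unfold TT
  rw [Complex.re_ofReal_mul, Complex.re_sum, Finset.mul_sum, Real.exp_sum]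
  refine Finset.prod_congr rfl fun a ha => ?_
  have h1 : 0 < ‖z - ζ j a‖ := lt_of_lt_of_le hδ (h j a (Finset.mem_range.1 ha))
  rw [Complex.log_re, norm_uu (hζ j a), Real.rpow_def_of_pos (by positivity), mul_comm]

theorem norm_FF (hζ : ∀ j a, ‖ζ j a‖ = 1) (hα : ∀ j, 0 < α j)
    (hs : Summable fun j => α j * m j)
    (hZ : ∀ z ∈ closure {x : ℂ | ∃ j a, a < m j ∧ x = ζ j a}, ∀ ε > 0, ∃ J, PP m ζ α J z < ε)
    {z : ℂ} (hz : ‖z‖ ≤ 1) : ‖FF m ζ α z‖ = ⨅ J, PP m ζ α J z := by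
  unfold FF
  split_ifs with hmem
  · rw [norm_zero]
    refine le_antisymm (le_ciInf fun J => PP_nonneg J z) ?_
    refine le_of_forall_pos_lt_add fun ε hε => ?_
    obtain ⟨J, hJ⟩ := hZ z hmem ε hε
    rw [zero_add]
    exact lt_of_le_of_lt (ciInf_le (PP_bdd z) J) hJ
  · obtain ⟨δ, hδ, h⟩ := far_of_notMem hmem
    have hsum := summable_TT hζ hα hs hδ hz h
    have h1 := hsum.hasSum.mapL Complex.reCLM
    have h2 := h1.tendsto_sum_nat
    have h3 := (Real.continuous_exp.tendsto _).comp h2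
    have h4 : (Real.exp ∘ fun n : ℕ => ∑ i ∈ Finset.range n, Complex.reCLM (TT m ζ α i z)) =
        fun J => PP m ζ α J z := by
      funext J
      simp only [Function.comp_apply]
      rw [Real.exp_sum]
      unfold PP
      exact Finset.prod_congr rfl fun j _ => TT_re hζ hδ h j
    rw [h4] at h3
    have h5 := tendsto_atTop_ciInf (PP_antitone hζ hα hz) (PP_bdd (m := m) (ζ := ζ) (α := α) z)
    have h6 := tendsto_nhds_unique h3 h5
    rw [Complex.norm_exp, ← h6]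
    rfl

theorem FF_diff (hζ : ∀ j a, ‖ζ j a‖ = 1) (hα : ∀ j, 0 < α j)
    (hs : Summable fun j => α j * m j) : DifferentiableOn ℂ (FF m ζ α) (ball 0 1) := by
  intro z hz
  rw [mem_ball_zero_iff] at hz
  obtain ⟨r, hr1, hr2⟩ := exists_between hz
  have hU : IsOpen (ball (0 : ℂ) r) := isOpen_ball
  have hfar : ∀ w ∈ ball (0 : ℂ) r, Far m ζ (1 - r) w := fun w hw =>
    far_ball hζ (by rwa [mem_ball_zero_iff] at hw)
  have hnorm : ∀ w ∈ ball (0 : ℂ) r, ‖w‖ ≤ 1 := fun w hw => by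
    rw [mem_ball_zero_iff] at hw
    linarith
  have h1 : DifferentiableOn ℂ (GG m ζ α) (ball 0 r) := by
    unfold GG
    exact DifferentiableOn.congr (Complex.differentiableOn_tsum_of_summable_norm (hs.mul_right _)
      (fun j => (TT_diff hζ j).mono (ball_subset_ball hr2.le)) hU
      (fun j w hw => TT_le hζ hα (by linarith : (0 : ℝ) < 1 - r) (hnorm w hw) (hfar w hw) j))
      (fun w _ => rfl)
  have h2 : DifferentiableAt ℂ (GG m ζ α) z :=
    (h1 z (mem_ball_zero_iff.2 hr1)).differentiableAt (hU.mem_nhds (mem_ball_zero_iff.2 hr1))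
  have h3 : DifferentiableAt ℂ (fun w => Complex.exp (GG m ζ α w)) z := h2.cexp
  refine DifferentiableAt.differentiableWithinAt ?_
  refine h3.congr_of_eventuallyEq ?_
  filter_upwards [hU.mem_nhds (mem_ball_zero_iff.2 hr1)] with w hw
  unfold FF
  rw [if_neg (notMem_of_far (by linarith : (0 : ℝ) < 1 - r) (hfar w hw))]

theorem PP_cont (J : ℕ) (hα : ∀ j, 0 < α j) : Continuous (PP m ζ α J) := by
  unfold PP
  refine continuous_finsetProd _ fun j _ => continuous_finsetProd _ fun a _ => ?_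
  refine Continuous.rpow_const (by fun_prop) fun z => Or.inr (hα j).le

theorem FF_cont (hζ : ∀ j a, ‖ζ j a‖ = 1) (hα : ∀ j, 0 < α j)
    (hs : Summable fun j => α j * m j)
    (hZ : ∀ z ∈ closure {x : ℂ | ∃ j a, a < m j ∧ x = ζ j a}, ∀ ε > 0, ∃ J, PP m ζ α J z < ε) :
    ContinuousOn (FF m ζ α) (closedBall 0 1) := by
  intro z hz
  have hz1 : ‖z‖ ≤ 1 := by rwa [mem_closedBall_zero_iff] at hz
  by_cases hmem : z ∈ closure {x : ℂ | ∃ j a, a < m j ∧ x = ζ j a}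
  · have h0 : FF m ζ α z = 0 := by unfold FF; rw [if_pos hmem]
    rw [Metric.continuousWithinAt_iff]
    intro ε hε
    obtain ⟨J, hJ⟩ := hZ z hmem ε hε
    have h1 := (PP_cont (m := m) (ζ := ζ) J hα).continuousAt.eventually (gt_mem_nhds hJ)
    rw [Metric.eventually_nhds_iff] at h1
    obtain ⟨δ, hδ, h2⟩ := h1
    refine ⟨δ, hδ, fun {x} hx hxz => ?_⟩
    rw [mem_closedBall_zero_iff] at hx
    rw [h0, dist_zero_right, norm_FF hζ hα hs hZ hx]
    exact lt_of_le_of_lt (ciInf_le (PP_bdd x) J) (h2 hxz)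
  · obtain ⟨δ, hδ, h⟩ := far_of_notMem hmem
    obtain ⟨s, hsd⟩ : ∃ s : Set ℂ, s = ball z (δ / 2) ∩ closedBall 0 1 := ⟨_, rfl⟩
    have hfar : ∀ w ∈ s, ‖w‖ ≤ 1 ∧ Far m ζ (δ / 2) w := by
      intro w hw
      rw [hsd] at hw
      refine ⟨by simpa using hw.2, fun j a ha => ?_⟩
      have h1 := h j a ha
      have h2 : ‖z - ζ j a‖ ≤ ‖z - w‖ + ‖w - ζ j a‖ := by
        have := norm_add_le (z - w) (w - ζ j a)
        rwa [sub_add_sub_cancel] at this
      have h3 : ‖z - w‖ < δ / 2 := by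
        have := hw.1
        rw [mem_ball, dist_comm, dist_eq_norm] at this
        exact this
      linarith
    have hδ2 : 0 < δ / 2 := by positivity
    have hzs : z ∈ s := by rw [hsd]; exact ⟨mem_ball_self hδ2, hz⟩
    have h1 : ContinuousOn (GG m ζ α) s := by
      unfold GG
      exact continuousOn_tsum (fun j => TT_cont hζ hδ2 hfar j) (hs.mul_right _)
        (fun j w hw => TT_le hζ hα hδ2 (hfar w hw).1 (hfar w hw).2 j)
    have h2 : ContinuousOn (FF m ζ α) s := by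
      refine (h1.cexp).congr fun w hw => ?_
      unfold FF
      rw [if_neg (notMem_of_far hδ2 (hfar w hw).2)]
    have h3 := h2 z hzs
    rw [hsd] at h3
    exact (continuousWithinAt_inter' (mem_nhdsWithin_of_mem_nhds (ball_mem_nhds z hδ2))).1
      (by rwa [Set.inter_comm] at h3)

end

theorem w_fn : S_W := by
  intro m ζ α hζ hα hs hZ
  have hc := FF_cont hζ hα hs hZ
  have hd := FF_diff hζ hα hs
  refine ⟨⟨⟨fun z => FF m ζ α z, ?_⟩, FF m ζ α, hd, fun z => rfl⟩, fun z => ?_⟩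
  · exact continuousOn_iff_continuous_domRestrict.1 hc
  · exact norm_FF hζ hα hs hZ (mem_closedBall_zero_iff.1 z.2)

end Pool.Agent.Q224.SF
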