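import Pool.Agent.Q224.SF.Occ
import Pool.Agent.Q224.SF.W

/-! # Project SF (helper87), job SF-LOW (helper224) -/

set_option autoImplicit false

namespace Pool.Agent.Q224.SF

open Filter Topology Metric Pool.Agent.Q87 Pool.Agent.Q87.SF

theorem ee_sub (x y : ℝ) : ‖ee x - ee y‖ ≤ 2 * Real.pi * |x - y| := by
  have h1 : ee x - ee y = ee y * (Complex.exp (Complex.I * ((2 * Real.pi * (x - y) : ℝ) : ℂ)) - 1) := by
    unfold ee
    rw [mul_sub, mul_one, ← Complex.exp_add]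
    congr 2
    push_cast
    ring
  have h2 : ‖ee y‖ = 1 := by
    unfold ee
    have : (2 * (Real.pi : ℂ) * y * Complex.I) = ((2 * Real.pi * y : ℝ) : ℂ) * Complex.I := by
      push_cast; ring
    rw [this, Complex.norm_exp_ofReal_mul_I]
  rw [h1, norm_mul, h2, one_mul]
  refine (Real.norm_exp_I_mul_ofReal_sub_one_le).trans (le_of_eq ?_)
  rw [Real.norm_eq_abs, abs_mul, abs_of_pos (by positivity)]

theorem norm_ee (y : ℝ) : ‖ee y‖ = 1 := by
  unfold ee
  have : (2 * (Real.pi : ℂ) * y * Complex.I) = ((2 * Real.pi * y : ℝ) : ℂ) * Complex.I := by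
    push_cast; ring
  rw [this, Complex.norm_exp_ofReal_mul_I]

theorem norm_zt (j a : ℕ) : ‖zt j a‖ = 1 := by
  unfold zt
  rw [norm_mul, norm_pow, Complex.norm_I, one_pow, norm_ee, one_mul]

theorem al_pos (j : ℕ) : 0 < al j := by
  unfold al
  positivity

/-- the exponent of one point -/
noncomputable def ex (j : ℕ) (P : ℕ → ℕ → Prop) (m : ℕ) : ℕ := by
  classical
  exact ∑ q ∈ (Finset.Icc 1 (j - 2)).filter (fun q => P q m), 2 ^ (q - 1)

theorem sum_two (Q : ℕ) : ∑ q ∈ Finset.Icc 1 Q, 2 ^ (q - 1) + 1 = 2 ^ Q := by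
  induction Q with
  | zero => simp
  | succ Q ih =>
    rw [Finset.sum_Icc_succ_top (by omega), Nat.add_sub_cancel, pow_succ]
    omega

theorem ex_zero_or (j : ℕ) (P : ℕ → ℕ → Prop) (m : ℕ) : ex j P m = 0 ∨
    ∃ Q, 1 ≤ Q ∧ Q ≤ j - 2 ∧ P Q m ∧ ex j P m + 1 ≤ 2 ^ Q := by
  classical
  unfold ex
  by_cases h : ((Finset.Icc 1 (j - 2)).filter (fun q => P q m)).Nonempty
  · right
    obtain ⟨Q, hQ, hmax⟩ := Finset.exists_max_image _ (fun q => q) h
    rw [Finset.mem_filter, Finset.mem_Icc] at hQ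
    refine ⟨Q, hQ.1.1, hQ.1.2, hQ.2, ?_⟩
    rw [← sum_two Q]
    refine Nat.add_le_add_right (Finset.sum_le_sum_of_subset fun q hq => ?_) 1
    have := hmax q hq
    rw [Finset.mem_filter, Finset.mem_Icc] at hq
    rw [Finset.mem_Icc]
    exact ⟨hq.1.1, this⟩
  · left
    rw [Finset.not_nonempty_iff_eq_empty.1 h, Finset.sum_empty]

/-- the sum of the exponents -/
theorem sum_ex (j : ℕ) (hj : 3 ≤ j) (P : ℕ → ℕ → Prop) [∀ q, DecidablePred (P q)]
    (h : ∀ q, q ≤ j - 2 → 2 ^ (j - q - 2) ≤ ((Finset.range (2 ^ j)).filter (fun m => P q m)).card) :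
    (j - 2) * 2 ^ (j - 3) ≤ ∑ m ∈ Finset.range (2 ^ j), ex j P m := by
  classical
  have h1 : ∑ m ∈ Finset.range (2 ^ j), ex j P m =
      ∑ q ∈ Finset.Icc 1 (j - 2), 2 ^ (q - 1) * ((Finset.range (2 ^ j)).filter (fun m => P q m)).card := by
    have e1 : ∀ m, ex j P m = ∑ q ∈ Finset.Icc 1 (j - 2), if P q m then 2 ^ (q - 1) else 0 := by
      intro m
      unfold ex
      rw [Finset.sum_filter]
      exact Finset.sum_congr rfl fun q _ => by congr
    rw [Finset.sum_congr rfl fun m _ => e1 m, Finset.sum_comm]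
    refine Finset.sum_congr rfl fun q _ => ?_
    rw [← Finset.sum_filter, Finset.sum_const, smul_eq_mul, mul_comm]
  rw [h1]
  have h2 : ∀ q ∈ Finset.Icc 1 (j - 2), 2 ^ (j - 3) ≤
      2 ^ (q - 1) * ((Finset.range (2 ^ j)).filter (fun m => P q m)).card := by
    intro q hq
    rw [Finset.mem_Icc] at hq
    calc 2 ^ (j - 3) = 2 ^ (q - 1) * 2 ^ (j - q - 2) := by rw [← pow_add]; congr 1; omega
      _ ≤ _ := Nat.mul_le_mul_left _ (h q hq.2)
  have h3 := Finset.sum_le_sum h2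
  rw [Finset.sum_const, Nat.card_Icc, smul_eq_mul] at h3
  have h4 : j - 2 + 1 - 1 = j - 2 := by omega
  rwa [h4] at h3

theorem quarter_pow (Q : ℕ) : ∃ y : ℝ, 0 < y ∧ y = (1 / 4 : ℝ) ^ (2 ^ Q) := ⟨_, by positivity, rfl⟩

/-- the bound for the factor of one level -/
theorem level (hC : S_CLOSE) (hO : S_OCC) {z : ℂ} (hz : ‖z‖ ≤ 1) {j j' a' : ℕ}
    (hj : 3 ≤ j) (hjj : j ≤ j') (hclose : ‖zt j' a' - z‖ ≤ (1 / 4 : ℝ) ^ (2 ^ (j - 2))) :
    ∏ a ∈ Finset.range (mm j), (‖z - zt j a‖ / 2) ^ (al j) ≤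
      Real.exp (-(Real.log 4 / 32 * (1 / ((j : ℝ) + 1)))) := by
  classical
  obtain ⟨i, hi⟩ : ∃ i, i = a' % 3 := ⟨_, rfl⟩
  obtain ⟨n, hn⟩ : ∃ n, n = a' / 3 := ⟨_, rfl⟩
  have hi3 : i < 3 := by rw [hi]; exact Nat.mod_lt _ (by norm_num)
  obtain ⟨P, hPd⟩ : ∃ P : ℕ → ℕ → Prop, P = fun q m => ∀ l < 2 ^ q, ep j' (n + l) = ep j (m + l) := ⟨_, rfl⟩
  have hd2 : ∀ a, ‖z - zt j a‖ / 2 ≤ 1 := by
    intro a
    have := norm_sub_le z (zt j a)
    rw [norm_zt] at this
    linarith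
  -- distance for one point
  have hdist : ∀ q m, q ≤ j - 2 → P q m → ‖z - zt j (3 * m + i)‖ / 2 ≤ 2 * (1 / 4 : ℝ) ^ (2 ^ q) := by
    intro q m hq hPq
    rw [hPd] at hPq
    have h1 := hC j' j n m (2 ^ q) hPq
    have e1 : zt j' a' = Complex.I ^ (i + 1) * ee (Y j' n) := by rw [hi, hn]; rfl
    have e2 : zt j (3 * m + i) = Complex.I ^ (i + 1) * ee (Y j m) := by
      unfold zt
      have e3 : (3 * m + i) % 3 = i := by omega
      have e4 : (3 * m + i) / 3 = m := by omega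
      rw [e3, e4]
    have h2 : ‖zt j' a' - zt j (3 * m + i)‖ ≤ 2 * Real.pi * |Y j' n - Y j m| := by
      rw [e1, e2, ← mul_sub, norm_mul, norm_pow, Complex.norm_I, one_pow, one_mul]
      exact ee_sub _ _
    have h3 : ‖z - zt j (3 * m + i)‖ ≤ ‖zt j' a' - z‖ + ‖zt j' a' - zt j (3 * m + i)‖ := by
      have := norm_add_le (z - zt j' a') (zt j' a' - zt j (3 * m + i))
      rw [sub_add_sub_cancel, norm_sub_rev z (zt j' a')] at this
      exact this
    have h4 : (1 / 4 : ℝ) ^ (2 ^ (j - 2)) ≤ (1 / 4 : ℝ) ^ (2 ^ q) :=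
      pow_le_pow_of_le_one (by norm_num) (by norm_num) (Nat.pow_le_pow_right (by norm_num) hq)
    have h5 : (1 : ℝ) / (3 * 4 ^ (2 ^ q)) = 1 / 3 * (1 / 4 : ℝ) ^ (2 ^ q) := by
      rw [one_div_pow]
      field_simp
    rw [h5] at h1
    have h6 : Real.pi ≤ 3.15 := Real.pi_lt_d2.le
    have h7 : 0 < (1 / 4 : ℝ) ^ (2 ^ q) := by positivity
    have h8 : 2 * Real.pi * |Y j' n - Y j m| ≤ 2 * 3.15 * (1 / 3 * (1 / 4 : ℝ) ^ (2 ^ q)) := by
      have h9 : 0 ≤ |Y j' n - Y j m| := abs_nonneg _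
      have h10 := Real.pi_pos
      calc 2 * Real.pi * |Y j' n - Y j m| ≤ 2 * 3.15 * |Y j' n - Y j m| := by nlinarith
        _ ≤ _ := by nlinarith
    linarith
  have hfac : ∀ m, ‖z - zt j (3 * m + i)‖ / 2 ≤ (1 / 4 : ℝ) ^ (ex j P m) := by
    intro m
    rcases ex_zero_or j P m with h | ⟨Q, hQ1, hQ2, hQP, hQe⟩
    · rw [h, pow_zero]
      exact hd2 _
    · have h1 := hdist Q m hQ2 hQP
      have h2 : (1 / 4 : ℝ) ^ (2 ^ Q) ≤ (1 / 4 : ℝ) ^ (ex j P m + 1) :=
        pow_le_pow_of_le_one (by norm_num) (by norm_num) hQe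
      rw [pow_succ] at h2
      have h3 : 0 < (1 / 4 : ℝ) ^ (ex j P m) := by positivity
      linarith
  have hsum := sum_ex j hj P (by
    intro q hq
    have := hO q j' j n (by omega) (by omega)
    refine this.trans (le_of_eq (congrArg Finset.card ?_))
    ext m
    rw [Finset.mem_filter, Finset.mem_filter, hPd])
  have hal := al_pos j
  -- the product over all the points
  have hprod : ∏ a ∈ Finset.range (mm j), (‖z - zt j a‖ / 2) ^ (al j) ≤
      ∏ m ∈ Finset.range (2 ^ j), (‖z - zt j (3 * m + i)‖ / 2) ^ (al j) := by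
    have hsub : (Finset.range (2 ^ j)).image (fun m => 3 * m + i) ⊆ Finset.range (mm j) := by
      intro a ha
      rw [Finset.mem_image] at ha
      obtain ⟨m, hm, rfl⟩ := ha
      rw [Finset.mem_range] at hm ⊢
      unfold mm
      omega
    rw [← Finset.prod_sdiff hsub, Finset.prod_image (fun a _ b _ h => by omega)]
    refine mul_le_of_le_one_left (Finset.prod_nonneg fun _ _ => by positivity) ?_
    exact Finset.prod_le_one (fun _ _ => by positivity) fun a _ =>
      Real.rpow_le_one (by positivity) (hd2 a) hal.le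
  refine hprod.trans ?_
  have h1 : ∏ m ∈ Finset.range (2 ^ j), (‖z - zt j (3 * m + i)‖ / 2) ^ (al j) ≤
      ∏ m ∈ Finset.range (2 ^ j), ((1 / 4 : ℝ) ^ (ex j P m)) ^ (al j) :=
    Finset.prod_le_prod (fun _ _ => by positivity) fun m _ =>
      Real.rpow_le_rpow (by positivity) (hfac m) hal.le
  refine h1.trans ?_
  have h2 : ∀ m, ((1 / 4 : ℝ) ^ (ex j P m)) ^ (al j) = Real.exp (-(Real.log 4 * al j) * ex j P m) := by
    intro m
    rw [Real.rpow_def_of_pos (by positivity), Real.log_pow, one_div, Real.log_inv]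
    congr 1
    ring
  rw [Finset.prod_congr rfl fun m _ => h2 m, ← Real.exp_sum, Real.exp_le_exp, ← Finset.mul_sum]
  have h3 : ((j : ℝ) - 2) * 2 ^ (j - 3) ≤ ∑ m ∈ Finset.range (2 ^ j), (ex j P m : ℝ) := by
    have h4 : (((j - 2) * 2 ^ (j - 3) : ℕ) : ℝ) ≤ ((∑ m ∈ Finset.range (2 ^ j), ex j P m : ℕ) : ℝ) := by
      exact_mod_cast hsum
    rw [Nat.cast_mul, Nat.cast_sub (by omega)] at h4
    push_cast at h4
    exact h4
  have hl : 0 < Real.log 4 := Real.log_pos (by norm_num)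
  have h4 : Real.log 4 / 32 * (1 / ((j : ℝ) + 1)) ≤ Real.log 4 * al j * (((j : ℝ) - 2) * 2 ^ (j - 3)) := by
    have hj3 : (3 : ℝ) ≤ j := by exact_mod_cast hj
    have h5 : (2 : ℝ) ^ j = 8 * 2 ^ (j - 3) := by
      have : j = 3 + (j - 3) := by omega
      nth_rewrite 1 [this]
      rw [pow_add]
      norm_num
    have h6 : 0 < (2 : ℝ) ^ (j - 3) := by positivity
    unfold al
    rw [h5]
    have h7 : Real.log 4 * (1 / (((j : ℝ) + 1) ^ 2 * (8 * 2 ^ (j - 3)))) * (((j : ℝ) - 2) * 2 ^ (j - 3)) =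
        Real.log 4 / 32 * (4 * ((j : ℝ) - 2) / ((j : ℝ) + 1) ^ 2) := by
      field_simp
      ring
    rw [h7]
    refine mul_le_mul_of_nonneg_left ?_ (by positivity)
    rw [div_le_div_iff₀ (by positivity) (by positivity)]
    nlinarith
  have h5 := mul_le_mul_of_nonneg_left h3 (mul_pos hl hal).le
  linarith

/-- points of the closure which are not in the family are limits of points of high level -/
theorem high {z : ℂ} (hz : z ∈ closure {x : ℂ | ∃ j a, a < mm j ∧ x = zt j a})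
    (hne : ∀ j a, a < mm j → z ≠ zt j a) (N : ℕ) {δ : ℝ} (hδ : 0 < δ) :
    ∃ j a, N ≤ j ∧ a < mm j ∧ ‖zt j a - z‖ < δ := by
  classical
  obtain ⟨S, hS⟩ : ∃ S : Finset ℂ, S = (Finset.range N).biUnion fun j =>
    (Finset.range (mm j)).image fun a => zt j a := ⟨_, rfl⟩
  have hzS : z ∉ (S : Set ℂ) := by
    intro h
    rw [hS, Finset.mem_coe, Finset.mem_biUnion] at h
    obtain ⟨j, _, h2⟩ := h
    rw [Finset.mem_image] at h2
    obtain ⟨a, h3, h4⟩ := h2
    exact hne j a (Finset.mem_range.1 h3) h4.symm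
  have hopen : IsOpen ((S : Set ℂ)ᶜ) := S.finite_toSet.isClosed.isOpen_compl
  obtain ⟨δ0, hδ0, hball⟩ := Metric.isOpen_iff.1 hopen z hzS
  rw [Metric.mem_closure_iff] at hz
  obtain ⟨x, ⟨j, a, ha, rfl⟩, hx⟩ := hz (min δ δ0) (lt_min hδ hδ0)
  rw [dist_comm] at hx
  refine ⟨j, a, ?_, ha, ?_⟩
  · by_contra hcon
    rw [not_le] at hcon
    have h1 := hball (mem_ball.2 (lt_of_lt_of_le hx (min_le_right _ _)))
    apply h1
    rw [hS, Finset.mem_coe, Finset.mem_biUnion]
    exact ⟨j, Finset.mem_range.2 hcon, Finset.mem_image.2 ⟨a, Finset.mem_range.2 ha, rfl⟩⟩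
  · rw [← dist_eq_norm]
    exact lt_of_lt_of_le hx (min_le_left _ _)

theorem low (_hP : S_PER) (hC : S_CLOSE) (hO : S_OCC) : S_LOW := by
  intro z hz ε hε
  have hz1 : ‖z‖ ≤ 1 := by
    have h1 : closure {x : ℂ | ∃ j a, a < mm j ∧ x = zt j a} ⊆ closedBall 0 1 := by
      refine closure_minimal ?_ isClosed_closedBall
      rintro _ ⟨j, a, _, rfl⟩
      rw [mem_closedBall_zero_iff, norm_zt]
    exact mem_closedBall_zero_iff.1 (h1 hz)
  by_cases hne : ∀ j a, a < mm j → z ≠ zt j a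
  · obtain ⟨c, hc⟩ : ∃ c : ℝ, c = Real.log 4 / 32 := ⟨_, rfl⟩
    have hc0 : 0 < c := by
      have : 0 < Real.log 4 := Real.log_pos (by norm_num)
      rw [hc]; positivity
    -- bound for each level
    have hlev : ∀ j : ℕ, ∏ a ∈ Finset.range (mm j), (‖z - zt j a‖ / 2) ^ (al j) ≤
        Real.exp (-(c * (1 / ((j : ℝ) + 1))) + if j < 3 then c else 0) := by
      intro j
      rcases Nat.lt_or_ge j 3 with hj | hj
      · rw [if_pos hj]
        have h1 : ∏ a ∈ Finset.range (mm j), (‖z - zt j a‖ / 2) ^ (al j) ≤ 1 :=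
          factor_le (m := mm) (ζ := zt) (α := al) norm_zt al_pos hz1 j
        refine h1.trans (Real.one_le_exp ?_)
        have h2 : 1 / ((j : ℝ) + 1) ≤ 1 := by
          rw [div_le_one (by positivity)]
          have : (0 : ℝ) ≤ j := Nat.cast_nonneg j
          linarith
        nlinarith
      · rw [if_neg (by omega), add_zero]
        obtain ⟨j', a', h1, _, h3⟩ := high hz hne j (show (0 : ℝ) < (1 / 4 : ℝ) ^ (2 ^ (j - 2)) by positivity)
        have := level hC hO hz1 hj h1 h3.le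
        rw [hc]
        exact this
    -- the harmonic series
    have hharm := Real.tendsto_sum_range_one_div_nat_succ_atTop
    obtain ⟨J, hJ3, hJ⟩ : ∃ J : ℕ, 3 ≤ J ∧ (3 * c - Real.log ε + 1) / c ≤
        ∑ i ∈ Finset.range J, (1 / ((i : ℝ) + 1)) := by
      obtain ⟨J, hJ⟩ := Filter.eventually_atTop.1
        (hharm.eventually_ge_atTop ((3 * c - Real.log ε + 1) / c))
      exact ⟨max J 3, le_max_right _ _, hJ _ (le_max_left _ _)⟩
    refine ⟨J, ?_⟩
    have h1 : PP mm zt al J z ≤ Real.exp (∑ j ∈ Finset.range J,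
        (-(c * (1 / ((j : ℝ) + 1))) + if j < 3 then c else 0)) := by
      unfold PP
      rw [Real.exp_sum]
      exact Finset.prod_le_prod (fun _ _ => Finset.prod_nonneg fun _ _ => by positivity)
        fun j _ => hlev j
    refine lt_of_le_of_lt h1 ?_
    rw [← Real.exp_log hε, Real.exp_lt_exp, Finset.sum_add_distrib,
      Finset.sum_neg_distrib, ← Finset.mul_sum]
    have h2 : ∑ j ∈ Finset.range J, (if j < 3 then c else 0) = 3 * c := by
      rw [← Finset.sum_filter, Finset.sum_const, nsmul_eq_mul]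
      have h3 : (Finset.range J).filter (fun j => j < 3) = Finset.range 3 := by
        ext j
        simp only [Finset.mem_filter, Finset.mem_range]
        omega
      rw [h3, Finset.card_range]
      norm_num
    rw [h2]
    rw [div_le_iff₀ hc0] at hJ
    linarith
  · push Not at hne
    obtain ⟨j, a, ha, rfl⟩ := hne
    refine ⟨j + 1, ?_⟩
    have h1 : PP mm zt al (j + 1) (zt j a) = 0 := by
      unfold PP
      refine Finset.prod_eq_zero (Finset.mem_range.2 (Nat.lt_succ_self j)) ?_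
      refine Finset.prod_eq_zero (Finset.mem_range.2 ha) ?_
      rw [sub_self, norm_zero, zero_div, Real.zero_rpow (al_pos j).ne']
    rw [h1]
    exact hε

end Pool.Agent.Q224.SF
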