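import Pool.Agent.Q87.SF.Stm

/-! # Project SF (helper87), job SF-OCC (helper224) -/

set_option autoImplicit false

namespace Pool.Agent.Q224.SF

open Filter Topology Metric Pool.Agent.Q87 Pool.Agent.Q87.SF

theorem ep_odd (j : ℕ) {k : ℕ} (hk : k % 2 = 1) : ep j k = 0 := by
  cases j with
  | zero => rfl
  | succ j => rw [ep, if_pos hk]

theorem ep_two (j : ℕ) {k : ℕ} (hk : k % 4 = 2) : ep (j + 1) k = 1 := by
  rw [ep, if_neg (by omega), ep_odd j (by omega)]

theorem ep_val (j n : ℕ) : ep j n = 0 ∨ ep j n = 1 := by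
  induction j generalizing n with
  | zero => left; rfl
  | succ j ih =>
    rw [ep]
    split_ifs
    · left; rfl
    · rcases ih (n / 2) with h | h <;> rw [h]
      · right; rfl
      · left; rfl

/-- fact (a): the values off the multiples of `2 ^ q` only depend on the class modulo `2 ^ q` -/
theorem ep_mod (q : ℕ) : ∀ i j n m : ℕ, q ≤ i → q ≤ j → ¬ 2 ^ q ∣ n → m % 2 ^ q = n % 2 ^ q →
    ep j m = ep i n := by
  induction q with
  | zero =>
    intro i j n m _ _ h
    exact absurd (by rw [pow_zero]; exact one_dvd n) h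
  | succ q ih =>
    intro i j n m hi hj h hm
    obtain ⟨i, rfl⟩ := Nat.exists_eq_add_of_le' (show 1 ≤ i by omega)
    obtain ⟨j, rfl⟩ := Nat.exists_eq_add_of_le' (show 1 ≤ j by omega)
    have hpow : 2 ^ (q + 1) = 2 * 2 ^ q := by rw [pow_succ]; ring
    have h2 : m % 2 = n % 2 := by
      have e1 : m % 2 ^ (q + 1) % 2 = m % 2 := Nat.mod_mod_of_dvd m (by rw [hpow]; exact Nat.dvd_mul_right 2 _)
      have e2 : n % 2 ^ (q + 1) % 2 = n % 2 := Nat.mod_mod_of_dvd n (by rw [hpow]; exact Nat.dvd_mul_right 2 _)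
      rw [← e1, ← e2, hm]
    rw [ep, ep, h2]
    split_ifs with hodd
    · rfl
    · congr 1
      refine ih i j (n / 2) (m / 2) (by omega) (by omega) ?_ ?_
      · rintro ⟨c, hc⟩
        apply h
        refine ⟨c, ?_⟩
        rw [hpow]
        have : n = 2 * (n / 2) := by omega
        rw [this, hc]
        ring
      · rw [hpow] at hm
        have e1 := Nat.mod_mul_right_div_self m 2 (2 ^ q)
        have e2 := Nat.mod_mul_right_div_self n 2 (2 ^ q)
        rw [← e1, ← e2, hm]

/-- fact (b) -/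
theorem ep_pow (q : ℕ) : ∀ j k : ℕ, ep (q + j) (2 ^ q * k) =
    if q % 2 = 0 then ep j k else 1 - ep j k := by
  induction q with
  | zero => intro j k; simp
  | succ q ih =>
    intro j k
    have e1 : q + 1 + j = (q + j) + 1 := by omega
    have e2 : 2 ^ (q + 1) * k = 2 * (2 ^ q * k) := by rw [pow_succ]; ring
    rw [e1, e2, ep, if_neg (by omega), Nat.mul_div_cancel_left _ (by norm_num : 0 < 2), ih]
    rcases ep_val j k with h | h <;> rw [h]
    · by_cases hq : q % 2 = 0
      · rw [if_pos hq, if_neg (by omega)]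
      · rw [if_neg hq, if_pos (by omega)]
    · by_cases hq : q % 2 = 0
      · rw [if_pos hq, if_neg (by omega)]
      · rw [if_neg hq, if_pos (by omega)]

theorem exists_kappa (q v : ℕ) (hv : v = 0 ∨ v = 1) : ∃ κ : ℕ, 1 ≤ κ ∧ κ ≤ 2 ∧
    ∀ j a : ℕ, q + 2 ≤ j → ep j (2 ^ q * (4 * a + κ)) = v := by
  have h1 : ∀ j a : ℕ, q + 2 ≤ j → ep j (2 ^ q * (4 * a + 1)) = if q % 2 = 0 then 0 else 1 := by
    intro j a hj
    obtain ⟨j', rfl⟩ := Nat.exists_eq_add_of_le (show q ≤ j by omega)
    rw [ep_pow, ep_odd j' (by omega)]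
  have h2 : ∀ j a : ℕ, q + 2 ≤ j → ep j (2 ^ q * (4 * a + 2)) = if q % 2 = 0 then 1 else 0 := by
    intro j a hj
    obtain ⟨j', rfl⟩ := Nat.exists_eq_add_of_le (show q + 1 ≤ j by omega)
    have e : q + 1 + j' = q + (j' + 1) := by omega
    rw [e, ep_pow, ep_two j' (by omega)]
  by_cases hq : q % 2 = 0
  · rcases hv with rfl | rfl
    · exact ⟨1, le_rfl, by norm_num, fun j a hj => by rw [h1 j a hj, if_pos hq]⟩
    · exact ⟨2, by norm_num, le_rfl, fun j a hj => by rw [h2 j a hj, if_pos hq]⟩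
  · rcases hv with rfl | rfl
    · exact ⟨2, by norm_num, le_rfl, fun j a hj => by rw [h2 j a hj, if_neg hq]⟩
    · exact ⟨1, le_rfl, by norm_num, fun j a hj => by rw [h1 j a hj, if_neg hq]⟩

theorem occ : S_OCC := by
  intro q i j n hi hj
  have hP : 0 < 2 ^ q := Nat.pow_pos (by norm_num)
  obtain ⟨l0, hl0, hdiv⟩ : ∃ l0 < 2 ^ q, 2 ^ q ∣ n + l0 := by
    by_cases h : n % 2 ^ q = 0
    · exact ⟨0, hP, Nat.dvd_of_mod_eq_zero (by simpa using h)⟩
    · have h1 := Nat.mod_lt n hP
      refine ⟨2 ^ q - n % 2 ^ q, by omega, ?_⟩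
      have h2 := Nat.div_add_mod n (2 ^ q)
      refine ⟨n / 2 ^ q + 1, ?_⟩
      rw [mul_add, mul_one]
      omega
  obtain ⟨κ, hκ1, hκ2, hκ⟩ := exists_kappa q (ep i (n + l0)) (ep_val i _)
  have hbig : ∀ a : ℕ, l0 < 2 ^ q * (4 * a + κ) := by
    intro a
    have : 2 ^ q * 1 ≤ 2 ^ q * (4 * a + κ) := Nat.mul_le_mul_left _ (by omega)
    omega
  have hcard := Finset.card_le_card_of_injOn (s := Finset.range (2 ^ (j - q - 2)))
    (t := (Finset.range (2 ^ j)).filter (fun m => ∀ l < 2 ^ q, ep i (n + l) = ep j (m + l)))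
    (fun a => 2 ^ q * (4 * a + κ) - l0) ?_ ?_
  · rwa [Finset.card_range] at hcard
  · intro a ha
    rw [Finset.mem_coe, Finset.mem_range] at ha
    simp only [Finset.mem_coe, Finset.mem_filter, Finset.mem_range]
    have hb := hbig a
    have hlt : 2 ^ q * (4 * a + κ) < 2 ^ j := by
      have e : 2 ^ j = 2 ^ q * (4 * 2 ^ (j - q - 2)) := by
        have : j = q + 2 + (j - q - 2) := by omega
        rw [this, pow_add, pow_add]
        have e2 : q + 2 + (j - q - 2) - q - 2 = j - q - 2 := by omega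
        rw [e2]
        ring
      rw [e]
      exact Nat.mul_lt_mul_of_pos_left (by omega) hP
    refine ⟨by omega, fun l hl => ?_⟩
    by_cases hll : l = l0
    · subst hll
      rw [Nat.sub_add_cancel hb.le, hκ j a hj]
    · symm
      refine ep_mod q i j (n + l) _ (by omega) (by omega) ?_ ?_
      · intro hd
        rcases Nat.lt_or_ge l l0 with h | h
        · have h1 := (Nat.dvd_sub hdiv hd)
          have h2 : n + l0 - (n + l) = l0 - l := by omega
          rw [h2] at h1
          have := Nat.le_of_dvd (by omega) h1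
          omega
        · have h1 := (Nat.dvd_sub hd hdiv)
          have h2 : n + l - (n + l0) = l - l0 := by omega
          rw [h2] at h1
          have := Nat.le_of_dvd (by omega) h1
          omega
      · obtain ⟨c, hc⟩ := hdiv
        -- both sides are congruent to `l - l0`
        have h1 : (2 ^ q * (4 * a + κ) - l0 + l) + 2 ^ q * c = (n + l) + 2 ^ q * (4 * a + κ) := by
          omega
        have h2 := congrArg (fun x => x % 2 ^ q) h1
        simp only [Nat.add_mul_mod_self_left] at h2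
        exact h2
  · intro a _ b _ hab
    simp only at hab
    have ha := hbig a
    have hb := hbig b
    have h1 : 2 ^ q * (4 * a + κ) = 2 ^ q * (4 * b + κ) := by omega
    have h2 := Nat.eq_of_mul_eq_mul_left hP h1
    omega

end Pool.Agent.Q224.SF
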